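import Mathlib
import Pool.Agent.Helper36.SPR.St

set_option autoImplicit false

namespace Pool.Agent.Helper61.SPR

open Finset Filter
open Pool.Agent.Helper36.SPR

lemma bet_le (hNA : StNA) (hNB : StNB) {p T j : ℕ} [NeZero p] {ε : ℝ} (hp : p.Prime) (hT : 0 < T)
    (hε : 1 ≤ ε * (2 * j)) (h : ∀ a : ZMod p, a ≠ 0 → ‖mu p T a‖ ≤ (p : ℝ) ^ (-ε)) :
    bet p T j ≤ 2 / p := by
  have hp0 : (0 : ℝ) < p := by exact_mod_cast hp.pos
  have hp1 : (1 : ℝ) < p := by exact_mod_cast hp.one_lt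
  rw [(hNB p T hT j).2.1]
  apply div_le_div_of_nonneg_right _ hp0.le
  rw [← Finset.add_sum_erase univ _ (mem_univ (0 : ZMod p))]
  have h0 : ‖mu p T 0‖ ^ (2 * j) ≤ 1 := pow_le_one₀ (norm_nonneg _) ((hNA p T hT j).2.2.2 0)
  have h1 : ∑ a ∈ univ.erase (0 : ZMod p), ‖mu p T a‖ ^ (2 * j)
      ≤ ∑ a ∈ univ.erase (0 : ZMod p), (1 / p : ℝ) := by
    apply Finset.sum_le_sum
    intro a ha
    have ha0 : a ≠ 0 := (mem_erase.1 ha).1
    calc ‖mu p T a‖ ^ (2 * j) ≤ ((p : ℝ) ^ (-ε)) ^ (2 * j) :=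
          pow_le_pow_left₀ (norm_nonneg _) (h a ha0) _
      _ = (p : ℝ) ^ (-ε * ((2 * j : ℕ) : ℝ)) := by
          rw [← Real.rpow_natCast, ← Real.rpow_mul hp0.le]
      _ ≤ (p : ℝ) ^ (-1 : ℝ) := by
          apply Real.rpow_le_rpow_of_exponent_le hp1.le
          push_cast; linarith
      _ = 1 / p := by rw [Real.rpow_neg_one, one_div]
  have h2 : ∑ a ∈ univ.erase (0 : ZMod p), (1 / p : ℝ) ≤ 1 := by
    rw [sum_const, nsmul_eq_mul, card_erase_of_mem (mem_univ _), card_univ, ZMod.card]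
    rw [mul_one_div, div_le_one hp0]
    exact_mod_cast Nat.sub_le _ _
  linarith

lemma ev_two (δ : ℝ) (hδ : 0 < δ) : ∃ N : ℕ, ∀ p : ℕ, N ≤ p → (2 : ℝ) ≤ (p : ℝ) ^ δ := by
  have h : Tendsto (fun p : ℕ => (p : ℝ) ^ δ) atTop atTop :=
    (tendsto_rpow_atTop hδ).comp tendsto_natCast_atTop_atTop
  exact eventually_atTop.1 (h.eventually_ge_atTop 2)

theorem hEQ (hNA : StNA) (hNB : StNB) (hNP : StNP) (hBI : StBI) (hFQ : StFQ) (hEP : StEP) :
    StEQ := by
  obtain ⟨ε₁, hε₁, p₁, hEP⟩ := hEP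
  obtain ⟨j, hj1, hj⟩ : ∃ j : ℕ, 1 ≤ j ∧ 1 ≤ ε₁ * (2 * j) := by
    obtain ⟨j, hj⟩ := exists_nat_gt (1 / (2 * ε₁))
    have hjp : (0 : ℝ) < j := lt_trans (by positivity) hj
    refine ⟨j, by exact_mod_cast hjp, ?_⟩
    rw [div_lt_iff₀ (by positivity)] at hj
    nlinarith
  set κ : ℝ := 1 / 24001 with hκ
  have hκ0 : 0 < κ := by rw [hκ]; norm_num
  have hκ1 : κ ≤ 1 := by rw [hκ]; norm_num
  set J : ℕ := 4 * j ^ 2 with hJ
  have hJ1 : 1 ≤ J := by
    rw [hJ]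
    have : 1 ≤ j ^ 2 := Nat.one_le_pow _ _ hj1
    omega
  have hJp : (0 : ℝ) < J := by exact_mod_cast hJ1
  obtain ⟨p₂, hp₂⟩ := ev_two (κ / 8) (by positivity)
  refine ⟨κ / (32 * J ^ 2), by positivity, max p₁ p₂, ?_⟩
  intro p q T _ _ hp₀ hp hq hpq hT h2 hop hoq a ha
  have hpp₁ : p₁ ≤ p := le_trans (le_max_left _ _) hp₀
  have hpp₂ : p₂ ≤ p := le_trans (le_max_right _ _) hp₀
  have hp0 : (0 : ℝ) < p := by exact_mod_cast hp.pos
  have hp1 : (1 : ℝ) < p := by exact_mod_cast hp.one_lt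
  have hq0 : (0 : ℝ) < q := by exact_mod_cast hq.pos
  have hq1 : (1 : ℝ) < q := by exact_mod_cast hq.one_lt
  have hpqR : (p : ℝ) < q := by exact_mod_cast hpq
  have h2p : (2 : ZMod p) ^ T = 1 := by
    have := congrArg (ZMod.castHom (dvd_mul_right p q) (ZMod p)) h2
    rwa [map_pow, map_one, map_ofNat] at this
  have h2q : (2 : ZMod q) ^ T = 1 := by
    have := congrArg (ZMod.castHom (dvd_mul_left q p) (ZMod q)) h2
    rwa [map_pow, map_one, map_ofNat] at this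
  have hbp : bet p T j ≤ 2 / p :=
    bet_le hNA hNB hp hT hj (hEP p T hpp₁ hp hT h2p hop)
  have hbq : bet q T j ≤ 2 / q :=
    bet_le hNA hNB hq hT hj (hEP q T (by omega) hq hT h2q hoq)
  have hmu1 : ‖mu (p * q) T a‖ ≤ 1 := (hNA (p * q) T hT 0).2.2.2 a
  have hmu0 : 0 ≤ ‖mu (p * q) T a‖ := norm_nonneg _
  -- the key bound
  have key : ‖mu (p * q) T a‖ ^ (4 * J ^ 2) ≤ (q : ℝ) ^ (-(κ / 8)) := by
    rcases le_or_gt (q : ℝ) ((p : ℝ) ^ κ * p) with hcase | hcase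
    · -- q ≤ p^(1+κ)
      have hK2 : (2 : ℝ) ≤ (p : ℝ) ^ κ := le_trans (hp₂ p hpp₂)
        (Real.rpow_le_rpow_of_exponent_le hp1.le (by linarith))
      have hbound : bet (p * q) T J < 2 / ((p : ℝ) ^ κ * p) := by
        by_contra hcon
        rw [not_lt] at hcon
        have := hFQ p q T j ((p : ℝ) ^ κ) hp hq hpq hT h2 hj1 hK2 hcase hbp hbq hcon
        have h3 : ((p : ℝ) ^ κ) ^ 24000 < p := by
          rw [← Real.rpow_natCast, ← Real.rpow_mul hp0.le]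
          calc (p : ℝ) ^ (κ * ((24000 : ℕ) : ℝ)) < (p : ℝ) ^ (1 : ℝ) := by
                apply Real.rpow_lt_rpow_of_exponent_lt hp1
                rw [hκ]; norm_num
            _ = p := Real.rpow_one _
        linarith
      have hBIa := hBI (p * q) T hT h2 J hJ1 a ha
      have hs : Real.sqrt ((p * q : ℕ) : ℝ) ≤ (p : ℝ) ^ (1 + κ / 2) := by
        rw [Real.sqrt_le_left (by positivity)]
        push_cast
        calc (p : ℝ) * q ≤ p * ((p : ℝ) ^ κ * p) := by gcongr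
          _ = ((p : ℝ) ^ (1 + κ / 2)) ^ 2 := by
            rw [← Real.rpow_natCast, ← Real.rpow_mul hp0.le]
            have e1 : (1 + κ / 2) * ((2 : ℕ) : ℝ) = 1 + κ + 1 := by push_cast; ring
            rw [e1, Real.rpow_add hp0, Real.rpow_add hp0, Real.rpow_one]
            ring
      have hqle : (q : ℝ) ≤ (p : ℝ) ^ (2 : ℝ) := by
        calc (q : ℝ) ≤ (p : ℝ) ^ κ * p := hcase
          _ ≤ (p : ℝ) ^ (1 : ℝ) * (p : ℝ) ^ (1 : ℝ) := by
            rw [Real.rpow_one]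
            have := Real.rpow_le_rpow_of_exponent_le hp1.le hκ1
            rw [Real.rpow_one] at this
            nlinarith
          _ = (p : ℝ) ^ (2 : ℝ) := by rw [← Real.rpow_add hp0]; norm_num
      have hqneg : (p : ℝ) ^ (-(κ / 4)) ≤ (q : ℝ) ^ (-(κ / 8)) := by
        calc (p : ℝ) ^ (-(κ / 4)) = ((p : ℝ) ^ (2 : ℝ)) ^ (-(κ / 8)) := by
              rw [← Real.rpow_mul hp0.le]; congr 1; ring
          _ ≤ (q : ℝ) ^ (-(κ / 8)) :=
              Real.rpow_le_rpow_of_nonpos hq0 hqle (by linarith)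
      have h4 : (2 : ℝ) ≤ (p : ℝ) ^ (κ / 4) := le_trans (hp₂ p hpp₂)
        (Real.rpow_le_rpow_of_exponent_le hp1.le (by linarith))
      have hb0 : 0 ≤ bet (p * q) T J := (hNB (p * q) T hT J).2.2.1
      calc ‖mu (p * q) T a‖ ^ (4 * J ^ 2)
          ≤ Real.sqrt ((p * q : ℕ) : ℝ) * bet (p * q) T J := hBIa
        _ ≤ (p : ℝ) ^ (1 + κ / 2) * (2 / ((p : ℝ) ^ κ * p)) := by
            gcongr
        _ = 2 * (p : ℝ) ^ (-(κ / 2)) := by
            have e1 : (p : ℝ) ^ (1 + κ / 2) = (p : ℝ) ^ (-(κ / 2)) * ((p : ℝ) ^ κ * p) := by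
              have : 1 + κ / 2 = -(κ / 2) + (κ + 1) := by ring
              rw [this, Real.rpow_add hp0, Real.rpow_add hp0, Real.rpow_one]
            rw [e1]
            have : (p : ℝ) ^ κ * p ≠ 0 := by positivity
            field_simp
        _ ≤ (p : ℝ) ^ (κ / 4) * (p : ℝ) ^ (-(κ / 2)) := by gcongr
        _ = (p : ℝ) ^ (-(κ / 4)) := by rw [← Real.rpow_add hp0]; congr 1; ring
        _ ≤ (q : ℝ) ^ (-(κ / 8)) := hqneg
    · -- q > p^(1+κ)
      have hBIa := hBI (p * q) T hT h2 j hj1 a ha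
      have hb1 : bet (p * q) T j ≤ 2 / q :=
        le_trans (hNP q (p * q) T (dvd_mul_left q p) hT j).2 hbq
      have hb0 : 0 ≤ bet (p * q) T j := (hNB (p * q) T hT j).2.2.1
      -- p q^(κ/2) ≤ q
      have hpq2 : (p : ℝ) * (q : ℝ) ^ (κ / 2) ≤ q := by
        by_contra hcon
        rw [not_le] at hcon
        -- q^(1-κ/2) < p, so q < p^(1+κ)
        have h5 : (q : ℝ) ^ (1 - κ / 2) < p := by
          have : (q : ℝ) = (q : ℝ) ^ (1 - κ / 2) * (q : ℝ) ^ (κ / 2) := by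
            rw [← Real.rpow_add hq0]; norm_num
          have hpos : (0 : ℝ) < (q : ℝ) ^ (κ / 2) := by positivity
          rw [this] at hcon
          exact lt_of_mul_lt_mul_right (by
            calc (q : ℝ) ^ (1 - κ / 2) * (q : ℝ) ^ (κ / 2) = q := this.symm
              _ < _ := by rw [this]; exact hcon) hpos.le
        have h6 : (q : ℝ) ≤ (p : ℝ) ^ κ * p := by
          calc (q : ℝ) = (q : ℝ) ^ (1 : ℝ) := (Real.rpow_one _).symm
            _ ≤ (q : ℝ) ^ ((1 - κ / 2) * (1 + κ)) := by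
                apply Real.rpow_le_rpow_of_exponent_le hq1.le
                nlinarith
            _ = ((q : ℝ) ^ (1 - κ / 2)) ^ (1 + κ) := by rw [Real.rpow_mul hq0.le]
            _ ≤ (p : ℝ) ^ (1 + κ) := Real.rpow_le_rpow (by positivity) h5.le (by linarith)
            _ = (p : ℝ) ^ κ * p := by rw [Real.rpow_add hp0, Real.rpow_one]; ring
        linarith
      have hs : Real.sqrt ((p * q : ℕ) : ℝ) ≤ (q : ℝ) ^ (1 - κ / 4) := by
        rw [Real.sqrt_le_left (by positivity)]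
        push_cast
        have e1 : ((q : ℝ) ^ (1 - κ / 4)) ^ 2 * (q : ℝ) ^ (κ / 2) = q * q := by
          rw [← Real.rpow_natCast, ← Real.rpow_mul hq0.le, ← Real.rpow_add hq0]
          have : (1 - κ / 4) * ((2 : ℕ) : ℝ) + κ / 2 = 1 + 1 := by push_cast; ring
          rw [this, Real.rpow_add hq0, Real.rpow_one]
        have hpos : (0 : ℝ) < (q : ℝ) ^ (κ / 2) := by positivity
        apply le_of_mul_le_mul_right _ hpos
        rw [e1]
        nlinarith
      have h8 : (2 : ℝ) ≤ (q : ℝ) ^ (κ / 8) := hp₂ q (by omega)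
      have h9 : ‖mu (p * q) T a‖ ^ (4 * j ^ 2) ≤ (q : ℝ) ^ (-(κ / 8)) := by
        calc ‖mu (p * q) T a‖ ^ (4 * j ^ 2)
            ≤ Real.sqrt ((p * q : ℕ) : ℝ) * bet (p * q) T j := hBIa
          _ ≤ (q : ℝ) ^ (1 - κ / 4) * (2 / q) := by gcongr
          _ = 2 * (q : ℝ) ^ (-(κ / 4)) := by
              have e1 : (q : ℝ) ^ (1 - κ / 4) = (q : ℝ) ^ (-(κ / 4)) * q := by
                have : 1 - κ / 4 = -(κ / 4) + 1 := by ring
                rw [this, Real.rpow_add hq0, Real.rpow_one]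
              rw [e1]
              field_simp
          _ ≤ (q : ℝ) ^ (κ / 8) * (q : ℝ) ^ (-(κ / 4)) := by gcongr
          _ = (q : ℝ) ^ (-(κ / 8)) := by rw [← Real.rpow_add hq0]; congr 1; ring
      refine le_trans (pow_le_pow_of_le_one hmu0 hmu1 ?_) h9
      have : 4 * j ^ 2 = J := hJ.symm
      rw [this]
      nlinarith
  by_contra hcon
  rw [not_le] at hcon
  have h10 : ((q : ℝ) ^ (-(κ / (32 * (J : ℝ) ^ 2)))) ^ (4 * J ^ 2)
      < ‖mu (p * q) T a‖ ^ (4 * J ^ 2) := by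
    apply pow_lt_pow_left₀ hcon (by positivity)
    have : 0 < J ^ 2 := by positivity
    omega
  have h11 : ((q : ℝ) ^ (-(κ / (32 * (J : ℝ) ^ 2)))) ^ (4 * J ^ 2) = (q : ℝ) ^ (-(κ / 8)) := by
    rw [← Real.rpow_natCast, ← Real.rpow_mul hq0.le]
    congr 1
    push_cast
    field_simp
    ring
  linarith

end Pool.Agent.Helper61.SPR
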